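import Pool.Agent.U212.GGBasic

set_option autoImplicit false

namespace Pool.Agent.U212.GG

open Filter

/-- State of the two-expansion algorithm. -/
structure St where
  p : ℤ
  p0 : ℤ
  q : ℤ
  q0 : ℤ
  r : ℤ
  r0 : ℤ
  s : ℤ
  s0 : ℤ
  z : ℝ

noncomputable def St.a (S : St) : ℤ := ⌊(S.s / S.z - S.q0) / S.q⌋ + 1
noncomputable def St.q1 (S : St) : ℤ := S.a * S.q + S.q0
noncomputable def St.eta (S : St) : ℝ := (S.z * S.q1 - S.s) / S.q
noncomputable def St.b (S : St) : ℤ := ⌈(S.q1 / S.eta - S.s0) / S.s⌉ - 1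
noncomputable def St.s1 (S : St) : ℤ := S.b * S.s + S.s0
noncomputable def St.z1 (S : St) : ℝ := (S.q1 - S.eta * S.s1) / S.s
noncomputable def St.next (S : St) : St where
  p := S.a * S.p + S.p0
  p0 := S.p
  q := S.q1
  q0 := S.q
  r := S.b * S.r + S.r0
  r0 := S.r
  s := S.s1
  s0 := S.s
  z := S.z1

structure Inv (x : ℝ) (e : ℤ) (S : St) : Prop where
  he : e = 1 ∨ e = -1
  hq : 1 ≤ S.q
  hq0 : 0 ≤ S.q0
  hs : 1 ≤ S.s
  hs0 : 0 ≤ S.s0
  hz : 0 < S.z
  hzx : S.z ≤ x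
  hzeq : S.z = e * (S.q * S.s * x - S.p * S.s - S.r * S.q)
  hd1 : S.p0 * S.q - S.p * S.q0 = e
  hd2 : S.r0 * S.s - S.r * S.s0 = e
  hi1 : S.z * S.s0 ≤ S.q
  hi2 : S.z * S.q0 ≤ S.s

section step
variable {x : ℝ} {e : ℤ} {S : St}

lemma Inv.qpos (h : Inv x e S) : (1 : ℝ) ≤ S.q := by exact_mod_cast h.hq
lemma Inv.spos (h : Inv x e S) : (1 : ℝ) ≤ S.s := by exact_mod_cast h.hs
lemma Inv.q0pos (h : Inv x e S) : (0 : ℝ) ≤ S.q0 := by exact_mod_cast h.hq0
lemma Inv.s0pos (h : Inv x e S) : (0 : ℝ) ≤ S.s0 := by exact_mod_cast h.hs0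

lemma Inv.eta_eq (h : Inv x e S) : S.eta * S.q = S.z * S.q1 - S.s := by
  have := h.qpos
  unfold St.eta
  field_simp

lemma St.q1_cast (S : St) : (S.q1 : ℝ) = S.a * S.q + S.q0 := by
  unfold St.q1; push_cast; ring

lemma St.s1_cast (S : St) : (S.s1 : ℝ) = S.b * S.s + S.s0 := by
  unfold St.s1; push_cast; ring

lemma Inv.eta_bounds (h : Inv x e S) : 0 < S.eta ∧ S.eta ≤ S.z := by
  have hq := h.qpos
  have hz := h.hz
  obtain ⟨X, hX⟩ : ∃ X : ℝ, X = (S.s / S.z - S.q0) / S.q := ⟨_, rfl⟩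
  have hXq : S.z * (X * S.q) = S.s - S.z * S.q0 := by
    rw [hX]; field_simp
  have ha : (S.a : ℝ) = ⌊X⌋ + 1 := by rw [hX]; unfold St.a; push_cast; rfl
  have h1 : X < S.a := by rw [ha]; exact Int.lt_floor_add_one X
  have h2 : (S.a : ℝ) ≤ X + 1 := by rw [ha]; linarith [Int.floor_le X]
  have key : S.eta * S.q = S.z * S.q * (S.a - X) := by
    rw [h.eta_eq, St.q1_cast]
    linear_combination hXq
  have hzq : 0 < S.z * S.q := by positivity
  constructor
  · have : 0 < S.eta * S.q := by rw [key]; exact mul_pos hzq (by linarith)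
    by_contra hcon
    push Not at hcon
    nlinarith
  · have : S.eta * S.q ≤ S.z * S.q := by
      rw [key]
      nlinarith
    by_contra hcon
    push Not at hcon
    nlinarith

lemma Inv.a_pos (h : Inv x e S) : 1 ≤ S.a := by
  have hq := h.qpos
  have hz := h.hz
  have h2 := h.hi2
  have : 0 ≤ (S.s / S.z - S.q0) / S.q := by
    apply div_nonneg _ (by linarith)
    rw [sub_nonneg, le_div_iff₀ hz]
    linarith
  have := Int.floor_nonneg.mpr this
  unfold St.a
  omega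

lemma Inv.z1_eq (h : Inv x e S) : S.z1 * S.s = S.q1 - S.eta * S.s1 := by
  have := h.spos
  unfold St.z1
  field_simp

lemma Inv.b_bounds (h : Inv x e S) :
    0 < S.z1 ∧ S.z1 ≤ S.eta := by
  have hs := h.spos
  obtain ⟨he0, he1⟩ := h.eta_bounds
  obtain ⟨Y, hY⟩ : ∃ Y : ℝ, Y = (S.q1 / S.eta - S.s0) / S.s := ⟨_, rfl⟩
  have hYs : S.eta * (Y * S.s) = S.q1 - S.eta * S.s0 := by
    rw [hY]; field_simp
  have hb : (S.b : ℝ) = ⌈Y⌉ - 1 := by rw [hY]; unfold St.b; push_cast; rfl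
  have h1 : (S.b : ℝ) < Y := by rw [hb]; linarith [Int.ceil_lt_add_one Y]
  have h2 : Y ≤ S.b + 1 := by rw [hb]; linarith [Int.le_ceil Y]
  have key : S.z1 * S.s = S.eta * S.s * (Y - S.b) := by
    rw [h.z1_eq, St.s1_cast]
    linear_combination -hYs
  have hes : 0 < S.eta * S.s := by positivity
  constructor
  · have : 0 < S.z1 * S.s := by rw [key]; exact mul_pos hes (by linarith)
    by_contra hcon
    push Not at hcon
    nlinarith
  · have : S.z1 * S.s ≤ S.eta * S.s := by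
      rw [key]
      nlinarith
    by_contra hcon
    push Not at hcon
    nlinarith

lemma Inv.b_pos (h : Inv x e S) (hx : x < 1) : 1 ≤ S.b := by
  have hs := h.spos
  have hq := h.qpos
  obtain ⟨he0, he1⟩ := h.eta_bounds
  have hz := h.hz
  have hz1 : S.z < 1 := lt_of_le_of_lt h.hzx hx
  have h1 := h.hi1
  have h3 := h.eta_eq
  have hs0 := h.s0pos
  have hgt : 1 < (S.q1 / S.eta - S.s0) / S.s := by
    rw [lt_div_iff₀ (by linarith), lt_sub_iff_add_lt, lt_div_iff₀ he0]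
    have h4 : 0 < S.z * (S.q1 - S.eta * (S.s + S.s0)) := by
      have e1 : S.z * (S.q1 - S.eta * (S.s + S.s0)) =
          S.s * (1 - S.z * S.eta) + S.eta * (S.q - S.z * S.s0) := by
        linear_combination -h3
      rw [e1]
      have h5 : S.z * S.eta < 1 := by nlinarith
      have h6 : 0 < S.s * (1 - S.z * S.eta) := by
        apply mul_pos (by linarith) (by linarith)
      have h7 : 0 ≤ S.eta * (S.q - S.z * S.s0) := mul_nonneg he0.le (by linarith)
      linarith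
    have h8 : 0 < S.q1 - S.eta * (S.s + S.s0) := by
      by_contra hcon
      push Not at hcon
      nlinarith
    linarith
  have h9 : (1 : ℤ) < ⌈(S.q1 / S.eta - S.s0) / S.s⌉ := by
    rw [Int.lt_ceil]
    push_cast
    exact hgt
  unfold St.b
  omega

lemma Inv.q1_pos (h : Inv x e S) : S.q + S.q0 ≤ S.q1 := by
  have := h.a_pos
  have := h.hq
  unfold St.q1
  nlinarith

lemma Inv.s1_pos (h : Inv x e S) (hx : x < 1) : S.s + S.s0 ≤ S.s1 := by
  have := h.b_pos hx
  have := h.hs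
  unfold St.s1
  nlinarith

lemma Inv.next (h : Inv x e S) (hx : x < 1) : Inv x (-e) S.next := by
  have hs := h.spos
  have hq := h.qpos
  obtain ⟨he0, he1⟩ := h.eta_bounds
  obtain ⟨hz0', hz1'⟩ := h.b_bounds
  have hz := h.hz
  have hz1 : S.z < 1 := lt_of_le_of_lt h.hzx hx
  have hq1 := h.q1_pos
  have hs1 := h.s1_pos hx
  have hq1' : (S.q : ℝ) + S.q0 ≤ S.q1 := by exact_mod_cast hq1
  have hs1' : (S.s : ℝ) + S.s0 ≤ S.s1 := by exact_mod_cast hs1
  have hq0 := h.q0pos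
  have hs0 := h.s0pos
  have hd1 := h.hd1
  have hd2 := h.hd2
  have hd1' : (S.p0 : ℝ) * S.q - S.p * S.q0 = e := by exact_mod_cast hd1
  have hd2' : (S.r0 : ℝ) * S.s - S.r * S.s0 = e := by exact_mod_cast hd2
  have hee : (e : ℝ) * e = 1 := by
    rcases h.he with h | h <;> rw [h] <;> norm_num
  have E1 := h.eta_eq
  have E2 := h.z1_eq
  refine ⟨?_, ?_, ?_, ?_, ?_, hz0', by show S.z1 ≤ x; linarith [h.hzx], ?_, ?_, ?_, ?_, ?_⟩
  · rcases h.he with h | h <;> rw [h] <;> simp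
  · show 1 ≤ S.q1
    have := h.hq; have := h.hq0; omega
  · show 0 ≤ S.q
    have := h.hq; omega
  · show 1 ≤ S.s1
    have := h.hs; have := h.hs0; omega
  · show 0 ≤ S.s
    have := h.hs; omega
  · show S.z1 = ((-e : ℤ) : ℝ) * (S.q1 * S.s1 * x - ((S.a * S.p + S.p0 : ℤ) : ℝ) * S.s1
      - ((S.b * S.r + S.r0 : ℤ) : ℝ) * S.q1)
    have hzeq := h.hzeq
    have hE : S.eta = e * (S.q1 * S.s * x - (S.a * S.p + S.p0) * S.s - S.r * S.q1) := by
      have : S.eta * S.q = (e * (S.q1 * S.s * x - (S.a * S.p + S.p0) * S.s - S.r * S.q1)) * S.q := by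
        rw [E1, hzeq, St.q1_cast]
        linear_combination (S.s * e : ℝ) * hd1' + (S.s : ℝ) * hee
      exact mul_right_cancel₀ (by linarith : (S.q : ℝ) ≠ 0) this
    have : S.z1 * S.s = (((-e : ℤ) : ℝ) * (S.q1 * S.s1 * x - ((S.a * S.p + S.p0 : ℤ) : ℝ) * S.s1
      - ((S.b * S.r + S.r0 : ℤ) : ℝ) * S.q1)) * S.s := by
      rw [E2, hE, St.s1_cast]
      push_cast
      linear_combination (-(S.q1 * e : ℝ)) * hd2' - (S.q1 : ℝ) * hee
    exact mul_right_cancel₀ (by linarith : (S.s : ℝ) ≠ 0) this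
  · show S.p * S.q1 - (S.a * S.p + S.p0) * S.q = -e
    unfold St.q1
    linear_combination -hd1
  · show S.r * S.s1 - (S.b * S.r + S.r0) * S.s = -e
    unfold St.s1
    linear_combination -hd2
  · show S.z1 * S.s ≤ S.q1
    rw [E2]
    have : 0 ≤ S.eta * S.s1 := mul_nonneg he0.le (by linarith)
    linarith
  · show S.z1 * S.q ≤ S.s1
    have h1 : S.z * S.eta * S.s1 = S.s * (1 - S.z * S.z1) + S.eta * S.q := by
      linear_combination S.z * E2 - E1
    have h2 : S.z * S.z1 < 1 := by nlinarith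
    have h3 : S.eta * S.q ≤ S.eta * (S.z * S.s1) := by
      have : 0 ≤ S.s * (1 - S.z * S.z1) := mul_nonneg (by linarith) (by linarith)
      linarith
    have h4 : (S.q : ℝ) ≤ S.z * S.s1 := le_of_mul_le_mul_left h3 he0
    have h5 : S.z * S.s1 ≤ S.s1 := by nlinarith
    have h6 : S.z1 * S.q ≤ S.q := by nlinarith
    linarith

end step

/-- The sequence of states of the algorithm started at `x`. -/
noncomputable def sq (x : ℝ) : ℕ → St
  | 0 => ⟨0, 1, 1, 0, 0, 1, 1, 0, x⟩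
  | n + 1 => (sq x n).next

section seq
variable {x : ℝ}

lemma inv_sq (hx0 : 0 < x) (hx1 : x < 1) (n : ℕ) : Inv x ((-1) ^ n) (sq x n) := by
  induction n with
  | zero =>
    refine ⟨?_, ?_, ?_, ?_, ?_, ?_, ?_, ?_, ?_, ?_, ?_, ?_⟩ <;> simp [sq] <;> linarith
  | succ n ih =>
    have := ih.next hx1
    rw [pow_succ, mul_neg_one]
    exact this

lemma sq_succ (n : ℕ) : sq x (n + 1) = (sq x n).next := rfl

lemma q_succ (n : ℕ) : (sq x (n + 1)).q = (sq x n).a * (sq x n).q + (sq x n).q0 := rfl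
lemma q0_succ (n : ℕ) : (sq x (n + 1)).q0 = (sq x n).q := rfl
lemma p_succ (n : ℕ) : (sq x (n + 1)).p = (sq x n).a * (sq x n).p + (sq x n).p0 := rfl
lemma p0_succ (n : ℕ) : (sq x (n + 1)).p0 = (sq x n).p := rfl
lemma s_succ (n : ℕ) : (sq x (n + 1)).s = (sq x n).b * (sq x n).s + (sq x n).s0 := rfl
lemma s0_succ (n : ℕ) : (sq x (n + 1)).s0 = (sq x n).s := rfl
lemma r_succ (n : ℕ) : (sq x (n + 1)).r = (sq x n).b * (sq x n).r + (sq x n).r0 := rfl
lemma r0_succ (n : ℕ) : (sq x (n + 1)).r0 = (sq x n).r := rfl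
lemma z_succ (n : ℕ) : (sq x (n + 1)).z = (sq x n).z1 := rfl

lemma z_antitone (hx0 : 0 < x) (hx1 : x < 1) : Antitone (fun n => (sq x n).z) := by
  apply antitone_nat_of_succ_le
  intro n
  have h := inv_sq hx0 hx1 n
  rw [z_succ]
  linarith [h.b_bounds.2, h.eta_bounds.2]

lemma q_ge (hx0 : 0 < x) (hx1 : x < 1) (n : ℕ) :
    (n : ℤ) ≤ (sq x n).q ∧ (n : ℤ) ≤ (sq x n).s := by
  induction n with
  | zero => simp [sq]
  | succ n ih =>
    have h := inv_sq hx0 hx1 n
    have h1 := h.q1_pos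
    have h2 := h.s1_pos hx1
    have e1 : (sq x (n + 1)).q = (sq x n).q1 := rfl
    have e2 : (sq x (n + 1)).s = (sq x n).s1 := rfl
    rcases n with _ | m
    · have h' := inv_sq hx0 hx1 1
      exact ⟨by simpa using h'.hq, by simpa using h'.hs⟩
    · have hm := inv_sq hx0 hx1 m
      have h3 : 1 ≤ (sq x (m + 1)).q0 := hm.hq
      have h4 : 1 ≤ (sq x (m + 1)).s0 := hm.hs
      push_cast at ih ⊢
      constructor
      · rw [e1]; omega
      · rw [e2]; omega

/-- The formula for a real number in terms of its convergents. -/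
lemma conv1 {t : ℕ → ℝ} (ht : ∀ n, 0 < t n ∧ t n < 1)
    (hrec : ∀ n, t n = 1 / ((sq x n).a + t (n + 1))) (ha : ∀ n, 1 ≤ (sq x n).a) (n : ℕ) :
    t 0 * ((sq x n).q + t n * (sq x n).q0) = (sq x n).p + t n * (sq x n).p0 := by
  induction n with
  | zero => simp [sq]
  | succ n ih =>
    have h1 := (ht (n + 1)).1
    have h2 : (1 : ℝ) ≤ (sq x n).a := by exact_mod_cast ha n
    have h3 : t n * ((sq x n).a + t (n + 1)) = 1 := by
      rw [hrec n]; field_simp
    rw [q_succ, q0_succ, p_succ, p0_succ]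
    push_cast
    have h4 : 0 < (sq x n).a + t (n + 1) := by linarith
    linear_combination ((sq x n).a + t (n + 1)) * ih +
      ((sq x n).p0 - t 0 * (sq x n).q0) * h3

lemma conv2 {t : ℕ → ℝ} (ht : ∀ n, 0 < t n ∧ t n < 1)
    (hrec : ∀ n, t n = 1 / ((sq x n).b + t (n + 1))) (ha : ∀ n, 1 ≤ (sq x n).b) (n : ℕ) :
    t 0 * ((sq x n).s + t n * (sq x n).s0) = (sq x n).r + t n * (sq x n).r0 := by
  induction n with
  | zero => simp [sq]
  | succ n ih =>
    have h1 := (ht (n + 1)).1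
    have h2 : (1 : ℝ) ≤ (sq x n).b := by exact_mod_cast ha n
    have h3 : t n * ((sq x n).b + t (n + 1)) = 1 := by
      rw [hrec n]; field_simp
    rw [s_succ, s0_succ, r_succ, r0_succ]
    push_cast
    have h4 : 0 < (sq x n).b + t (n + 1) := by linarith
    linear_combination ((sq x n).b + t (n + 1)) * ih +
      ((sq x n).r0 - t 0 * (sq x n).s0) * h3

lemma err_aux {g t p p0 q q0 e : ℝ} (ht0 : 0 < t) (ht1 : t < 1) (hq : 1 ≤ q) (hq0 : 0 ≤ q0)
    (hc : g * (q + t * q0) = p + t * p0) (hd : p0 * q - p * q0 = e) (he : e = 1 ∨ e = -1) :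
    |q * g - p| ≤ 1 := by
  have h1 : (q * g - p) * (q + t * q0) = t * e := by
    linear_combination q * hc + t * hd
  have h2 : 1 ≤ q + t * q0 := by nlinarith
  have h3 : |q * g - p| * (q + t * q0) = t := by
    rw [← abs_of_nonneg (by linarith : 0 ≤ q + t * q0), ← abs_mul, h1, abs_mul]
    rcases he with h | h <;> rw [h] <;> simp [abs_of_pos ht0]
  nlinarith [abs_nonneg (q * g - p)]

lemma bound_aux {A q s n : ℝ} (hn : 1 ≤ n) (hq : 1 ≤ q) (hs : 1 ≤ s) (hqn : n ≤ q)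
    (hsn : n ≤ s) (h : q * s * A ≤ 1 + s + q) : A * n ≤ 3 := by
  have hqs : 0 < q * s := by positivity
  have h1 : n ≤ q * s := by nlinarith
  have h2 : n * s ≤ q * s := mul_le_mul_of_nonneg_right hqn (by linarith)
  have h3 : n * q ≤ q * s := by rw [mul_comm q s]; exact mul_le_mul_of_nonneg_right hsn (by linarith)
  have h4 : n * (q * s * A) ≤ n * (1 + s + q) := mul_le_mul_of_nonneg_left h (by linarith)
  have h5 : (A * n) * (q * s) ≤ 3 * (q * s) := by
    have e : (A * n) * (q * s) = n * (q * s * A) := by ring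
    rw [e]
    have e2 : n * (1 + s + q) = n + n * s + n * q := by ring
    linarith
  exact le_of_mul_le_mul_right h5 hqs

lemma sum_eq (hx0 : 0 < x) (hx1 : x < 1) {t t' : ℕ → ℝ} (ht : ∀ n, 0 < t n ∧ t n < 1)
    (hrec : ∀ n, t n = 1 / ((sq x n).a + t (n + 1))) (ht' : ∀ n, 0 < t' n ∧ t' n < 1)
    (hrec' : ∀ n, t' n = 1 / ((sq x n).b + t' (n + 1))) : x = t 0 + t' 0 := by
  have hbound : ∀ n : ℕ, |x - (t 0 + t' 0)| * n ≤ 3 := by
    intro n
    have h := inv_sq hx0 hx1 n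
    have hq := h.qpos
    have hs := h.spos
    have hcv1 := conv1 ht hrec (fun n => (inv_sq hx0 hx1 n).a_pos) n
    have hcv2 := conv2 ht' hrec' (fun n => (inv_sq hx0 hx1 n).b_pos hx1) n
    have hd1 : ((sq x n).p0 : ℝ) * (sq x n).q - (sq x n).p * (sq x n).q0 = (((-1) ^ n : ℤ) : ℝ) := by
      exact_mod_cast h.hd1
    have hd2 : ((sq x n).r0 : ℝ) * (sq x n).s - (sq x n).r * (sq x n).s0 = (((-1) ^ n : ℤ) : ℝ) := by
      exact_mod_cast h.hd2
    have he : (((-1) ^ n : ℤ) : ℝ) = 1 ∨ (((-1) ^ n : ℤ) : ℝ) = -1 := by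
      rcases h.he with h | h <;> rw [h] <;> norm_num
    have e1 := err_aux (ht n).1 (ht n).2 hq h.q0pos hcv1 hd1 he
    have e2 := err_aux (ht' n).1 (ht' n).2 hs h.s0pos hcv2 hd2 he
    have hz := h.hzeq
    have hzx := h.hzx
    have hz0 := h.hz
    have hqn : (n : ℝ) ≤ (sq x n).q := by exact_mod_cast (q_ge hx0 hx1 n).1
    have hsn : (n : ℝ) ≤ (sq x n).s := by exact_mod_cast (q_ge hx0 hx1 n).2
    -- `q s (x - t0 - t0') = ± z - s (q t0 - p) - q (s t0' - r)`
    set q : ℝ := ((sq x n).q : ℝ)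
    set s : ℝ := ((sq x n).s : ℝ)
    set p : ℝ := ((sq x n).p : ℝ)
    set r : ℝ := ((sq x n).r : ℝ)
    set z : ℝ := (sq x n).z
    set e : ℝ := (((-1) ^ n : ℤ) : ℝ)
    have hee : e * e = 1 := by rcases he with h | h <;> rw [h] <;> norm_num
    have key : q * s * (x - (t 0 + t' 0)) = e * z - s * (q * t 0 - p) - q * (s * t' 0 - r) := by
      rw [hz]
      linear_combination (-(q * s * x - p * s - r * q)) * hee
    have habs : q * s * |x - (t 0 + t' 0)| ≤ 1 + s + q := by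
      have h1 : q * s * |x - (t 0 + t' 0)| = |q * s * (x - (t 0 + t' 0))| := by
        rw [abs_mul, abs_of_pos (by positivity : 0 < q * s)]
      rw [h1, key]
      have h2 : |e * z| ≤ 1 := by
        rw [abs_mul, abs_of_pos hz0]
        rcases he with h | h <;> rw [h] <;> simp <;> linarith
      have h3 : |s * (q * t 0 - p)| ≤ s := by
        rw [abs_mul, abs_of_pos (by linarith : 0 < s)]
        nlinarith
      have h4 : |q * (s * t' 0 - r)| ≤ q := by
        rw [abs_mul, abs_of_pos (by linarith : 0 < q)]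
        nlinarith
      have h5 := abs_sub (e * z - s * (q * t 0 - p)) (q * (s * t' 0 - r))
      have h6 := abs_sub (e * z) (s * (q * t 0 - p))
      linarith
    have hA := abs_nonneg (x - (t 0 + t' 0))
    set A := |x - (t 0 + t' 0)|
    rcases Nat.eq_zero_or_pos n with h0 | h0
    · subst h0; simp
    have hn1 : (1 : ℝ) ≤ n := by exact_mod_cast h0
    exact bound_aux hn1 hq hs hqn hsn habs
  by_contra hne
  have hpos : 0 < |x - (t 0 + t' 0)| := abs_pos.mpr (sub_ne_zero.mpr hne)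
  obtain ⟨n, hn⟩ := exists_nat_gt (3 / |x - (t 0 + t' 0)|)
  have := hbound n
  rw [div_lt_iff₀ hpos] at hn
  linarith

lemma a_formula (hx0 : 0 < x) (hx1 : x < 1) (n : ℕ) :
    ((sq x (n + 1)).a : ℝ) * ((sq x n).eta * (sq x (n + 1)).z) =
      1 - (sq x n).z * (sq x (n + 1)).z + (sq x n).eta * (sq x (n + 1)).eta := by
  have h := inv_sq hx0 hx1 n
  have h' := inv_sq hx0 hx1 (n + 1)
  have E1 : (sq x n).eta * (sq x n).q = (sq x n).z * (sq x (n + 1)).q - (sq x n).s := h.eta_eq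
  have E2 : (sq x (n + 1)).z * (sq x n).s =
    (sq x (n + 1)).q - (sq x n).eta * (sq x (n + 1)).s := h.z1_eq
  have E1' : (sq x (n + 1)).eta * (sq x (n + 1)).q =
    (sq x (n + 1)).z * (sq x (n + 2)).q - (sq x (n + 1)).s := h'.eta_eq
  have hq2 : ((sq x (n + 2)).q : ℝ) = (sq x (n + 1)).a * (sq x (n + 1)).q + (sq x n).q :=
    St.q1_cast _
  have hq := h'.qpos
  have : ((sq x (n + 1)).a : ℝ) * ((sq x n).eta * (sq x (n + 1)).z) * (sq x (n + 1)).q =
      (1 - (sq x n).z * (sq x (n + 1)).z + (sq x n).eta * (sq x (n + 1)).eta) *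
        (sq x (n + 1)).q := by
    linear_combination (-(sq x n).eta * (sq x (n + 1)).z) * hq2 - (sq x n).eta * E1' -
      (sq x (n + 1)).z * E1 + E2
  exact mul_right_cancel₀ (by linarith : ((sq x (n + 1)).q : ℝ) ≠ 0) this

lemma b_formula (hx0 : 0 < x) (hx1 : x < 1) (n : ℕ) :
    ((sq x (n + 1)).b : ℝ) * ((sq x (n + 1)).eta * (sq x (n + 1)).z) =
      1 - (sq x (n + 1)).z * (sq x (n + 2)).z + (sq x n).eta * (sq x (n + 1)).eta := by
  have h := inv_sq hx0 hx1 n
  have h' := inv_sq hx0 hx1 (n + 1)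
  have E2 : (sq x (n + 1)).z * (sq x n).s =
    (sq x (n + 1)).q - (sq x n).eta * (sq x (n + 1)).s := h.z1_eq
  have E1' : (sq x (n + 1)).eta * (sq x (n + 1)).q =
    (sq x (n + 1)).z * (sq x (n + 2)).q - (sq x (n + 1)).s := h'.eta_eq
  have E2' : (sq x (n + 2)).z * (sq x (n + 1)).s =
    (sq x (n + 2)).q - (sq x (n + 1)).eta * (sq x (n + 2)).s := h'.z1_eq
  have hs2 : ((sq x (n + 2)).s : ℝ) = (sq x (n + 1)).b * (sq x (n + 1)).s + (sq x n).s :=
    St.s1_cast _
  have hs := h'.spos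
  have : ((sq x (n + 1)).b : ℝ) * ((sq x (n + 1)).eta * (sq x (n + 1)).z) * (sq x (n + 1)).s =
      (1 - (sq x (n + 1)).z * (sq x (n + 2)).z + (sq x n).eta * (sq x (n + 1)).eta) *
        (sq x (n + 1)).s := by
    linear_combination (-(sq x (n + 1)).eta * (sq x (n + 1)).z) * hs2 + (sq x (n + 1)).z * E2' -
      (sq x (n + 1)).eta * E2 - E1'
  exact mul_right_cancel₀ (by linarith : ((sq x (n + 1)).s : ℝ) ≠ 0) this

lemma z_tendsto_zero (hx0 : 0 < x) (hx1 : x < 1) (hirr : Irrational x) :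
    Tendsto (fun n => (sq x n).z) atTop (nhds 0) := by
  have hanti := z_antitone hx0 hx1
  have hbdd : BddBelow (Set.range (fun n => (sq x n).z)) :=
    ⟨0, by rintro _ ⟨n, rfl⟩; exact (inv_sq hx0 hx1 n).hz.le⟩
  have hlim := tendsto_atTop_ciInf hanti hbdd
  set L : ℝ := ⨅ n, (sq x n).z with hL
  have hL0 : 0 ≤ L := le_ciInf fun n => (inv_sq hx0 hx1 n).hz.le
  rcases eq_or_lt_of_le hL0 with h0 | hLpos
  · rw [← h0] at hlim; exact hlim
  exfalso
  have hlim1 : Tendsto (fun n => (sq x (n + 1)).z) atTop (nhds L) :=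
    (tendsto_add_atTop_iff_nat (f := fun n => (sq x n).z) 1).mpr hlim
  have hlim2 : Tendsto (fun n => (sq x (n + 2)).z) atTop (nhds L) :=
    (tendsto_add_atTop_iff_nat (f := fun n => (sq x n).z) 2).mpr hlim
  have heta : Tendsto (fun n => (sq x n).eta) atTop (nhds L) := by
    refine tendsto_of_tendsto_of_tendsto_of_le_of_le hlim1 hlim ?_ ?_
    · intro n; exact (inv_sq hx0 hx1 n).b_bounds.2
    · intro n; exact (inv_sq hx0 hx1 n).eta_bounds.2
  have heta1 : Tendsto (fun n => (sq x (n + 1)).eta) atTop (nhds L) :=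
    (tendsto_add_atTop_iff_nat (f := fun n => (sq x n).eta) 1).mpr heta
  have ha : Tendsto (fun n => ((sq x (n + 1)).a : ℝ)) atTop (nhds (1 / (L * L))) := by
    have e : (fun n => ((sq x (n + 1)).a : ℝ)) = fun n =>
        (1 - (sq x n).z * (sq x (n + 1)).z + (sq x n).eta * (sq x (n + 1)).eta) /
          ((sq x n).eta * (sq x (n + 1)).z) := by
      funext n
      have h1 := (inv_sq hx0 hx1 n).eta_bounds.1
      have h2 := (inv_sq hx0 hx1 (n + 1)).hz
      rw [eq_div_iff (by positivity)]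
      exact a_formula hx0 hx1 n
    rw [e]
    have e2 : 1 / (L * L) = (1 - L * L + L * L) / (L * L) := by ring
    rw [e2]
    apply Tendsto.div _ _ (by positivity)
    · exact (tendsto_const_nhds.sub (hlim.mul hlim1)).add (heta.mul heta1)
    · exact heta.mul hlim1
  have hb : Tendsto (fun n => ((sq x (n + 1)).b : ℝ)) atTop (nhds (1 / (L * L))) := by
    have e : (fun n => ((sq x (n + 1)).b : ℝ)) = fun n =>
        (1 - (sq x (n + 1)).z * (sq x (n + 2)).z + (sq x n).eta * (sq x (n + 1)).eta) /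
          ((sq x (n + 1)).eta * (sq x (n + 1)).z) := by
      funext n
      have h1 := (inv_sq hx0 hx1 (n + 1)).eta_bounds.1
      have h2 := (inv_sq hx0 hx1 (n + 1)).hz
      rw [eq_div_iff (by positivity)]
      exact b_formula hx0 hx1 n
    rw [e]
    have e2 : 1 / (L * L) = (1 - L * L + L * L) / (L * L) := by ring
    rw [e2]
    apply Tendsto.div _ _ (by positivity)
    · exact (tendsto_const_nhds.sub (hlim1.mul hlim2)).add (heta.mul heta1)
    · exact heta1.mul hlim1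
  -- the digits are eventually constant
  rw [Metric.tendsto_atTop] at ha hb
  obtain ⟨n1, hn1⟩ := ha (1 / 4) (by norm_num)
  obtain ⟨n2, hn2⟩ := hb (1 / 4) (by norm_num)
  set m := max n1 n2 with hm
  obtain ⟨N, hN⟩ : ∃ N : ℤ, (sq x (m + 1)).a = N := ⟨_, rfl⟩
  have key : ∀ k : ℤ, |(k : ℝ) - 1 / (L * L)| < 1 / 4 → k = N := by
    intro k hk
    have h1 := hn1 m (le_max_left _ _)
    rw [hN, Real.dist_eq] at h1
    have h2 : |(k : ℝ) - N| < 1 := by
      rw [abs_lt] at hk h1 ⊢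
      constructor <;> linarith [hk.1, hk.2, h1.1, h1.2]
    have h3 : |k - N| < 1 := by exact_mod_cast h2
    have h4 := Int.abs_lt_one_iff.mp h3
    omega
  have ha1 := hN
  have ha2 : (sq x (m + 2)).a = N := key _ (by
    have := hn1 (m + 1) (by have := le_max_left n1 n2; omega)
    rwa [Real.dist_eq] at this)
  have hb1 : (sq x (m + 1)).b = N := key _ (by
    have := hn2 m (le_max_right _ _)
    rwa [Real.dist_eq] at this)
  have hb2 : (sq x (m + 2)).b = N := key _ (by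
    have := hn2 (m + 1) (by have := le_max_right n1 n2; omega)
    rwa [Real.dist_eq] at this)
  have z0 := (inv_sq hx0 hx1 m).hzeq
  have z1 := (inv_sq hx0 hx1 (m + 1)).hzeq
  have z2 := (inv_sq hx0 hx1 (m + 2)).hzeq
  have z3 := (inv_sq hx0 hx1 (m + 3)).hzeq
  have q2 : ((sq x (m + 2)).q : ℝ) = N * (sq x (m + 1)).q + (sq x m).q := by
    rw [← ha1]; exact St.q1_cast _
  have q3 : ((sq x (m + 3)).q : ℝ) = N * (sq x (m + 2)).q + (sq x (m + 1)).q := by
    rw [← ha2]; exact St.q1_cast _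
  have s2 : ((sq x (m + 2)).s : ℝ) = N * (sq x (m + 1)).s + (sq x m).s := by
    rw [← hb1]; exact St.s1_cast _
  have s3 : ((sq x (m + 3)).s : ℝ) = N * (sq x (m + 2)).s + (sq x (m + 1)).s := by
    rw [← hb2]; exact St.s1_cast _
  have p2 : ((sq x (m + 2)).p : ℝ) = N * (sq x (m + 1)).p + (sq x m).p := by
    rw [← ha1, p_succ (m + 1), p0_succ]; push_cast; ring
  have p3 : ((sq x (m + 3)).p : ℝ) = N * (sq x (m + 2)).p + (sq x (m + 1)).p := by
    rw [← ha2, p_succ (m + 2), p0_succ]; push_cast; ring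
  have r2 : ((sq x (m + 2)).r : ℝ) = N * (sq x (m + 1)).r + (sq x m).r := by
    rw [← hb1, r_succ (m + 1), r0_succ]; push_cast; ring
  have r3 : ((sq x (m + 3)).r : ℝ) = N * (sq x (m + 2)).r + (sq x (m + 1)).r := by
    rw [← hb2, r_succ (m + 2), r0_succ]; push_cast; ring
  have m1 : (sq x (m + 3)).z ≤ (sq x m).z := hanti (by omega)
  have m2 : (sq x (m + 2)).z ≤ (sq x (m + 1)).z := hanti (by omega)
  obtain ⟨e, he⟩ : ∃ e : ℝ, e = (-1) ^ m := ⟨_, rfl⟩
  have hee : e * e = 1 := by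
    rw [he, ← mul_pow]; norm_num
  have c1 : (((-1) ^ (m + 1) : ℤ) : ℝ) = -e := by rw [he]; push_cast; ring
  have c2 : (((-1) ^ (m + 2) : ℤ) : ℝ) = e := by rw [he]; push_cast; ring
  have c3 : (((-1) ^ (m + 3) : ℤ) : ℝ) = -e := by rw [he]; push_cast; ring
  have c0 : (((-1) ^ m : ℤ) : ℝ) = e := by rw [he]; push_cast; ring
  rw [c0] at z0
  rw [c1] at z1
  rw [c2] at z2
  rw [c3] at z3
  have ident : (sq x m).z - (sq x (m + 3)).z =
      ((N : ℝ) ^ 2 + 1) * ((sq x (m + 2)).z - (sq x (m + 1)).z) := by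
    rw [z0, z1, z2, z3, q3, s3, p3, r3, q2, s2, p2, r2]
    ring
  have heq : (sq x (m + 2)).z = (sq x (m + 1)).z := by
    have hpos : (0 : ℝ) < (N : ℝ) ^ 2 + 1 := by positivity
    by_contra hne
    have hlt : (sq x (m + 2)).z - (sq x (m + 1)).z < 0 := by
      have := lt_of_le_of_ne m2 hne
      linarith
    have := mul_neg_of_pos_of_neg hpos hlt
    linarith
  have hrat : x * ((sq x (m + 2)).q * (sq x (m + 2)).s + (sq x (m + 1)).q * (sq x (m + 1)).s) =
      (sq x (m + 2)).p * (sq x (m + 2)).s + (sq x (m + 2)).r * (sq x (m + 2)).q +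
      ((sq x (m + 1)).p * (sq x (m + 1)).s + (sq x (m + 1)).r * (sq x (m + 1)).q) := by
    rw [z1, z2] at heq
    have he0 : e ≠ 0 := by
      intro h; rw [h] at hee; norm_num at hee
    apply mul_left_cancel₀ he0
    linear_combination heq
  have hq1 := (inv_sq hx0 hx1 (m + 1)).qpos
  have hs1 := (inv_sq hx0 hx1 (m + 1)).spos
  have hq2 := (inv_sq hx0 hx1 (m + 2)).qpos
  have hs2 := (inv_sq hx0 hx1 (m + 2)).spos
  have hT : 0 < ((sq x (m + 2)).q * (sq x (m + 2)).s + (sq x (m + 1)).q * (sq x (m + 1)).s : ℝ) := by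
    positivity
  apply hirr
  refine ⟨(((sq x (m + 2)).p * (sq x (m + 2)).s + (sq x (m + 2)).r * (sq x (m + 2)).q +
      ((sq x (m + 1)).p * (sq x (m + 1)).s + (sq x (m + 1)).r * (sq x (m + 1)).q) : ℤ) : ℚ) /
      (((sq x (m + 2)).q * (sq x (m + 2)).s + (sq x (m + 1)).q * (sq x (m + 1)).s : ℤ) : ℚ), ?_⟩
  push_cast
  rw [div_eq_iff hT.ne']
  linarith

lemma digits_tendsto (hx0 : 0 < x) (hx1 : x < 1) (hirr : Irrational x) :
    Tendsto (fun n => (sq x n).a) atTop atTop ∧ Tendsto (fun n => (sq x n).b) atTop atTop := by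
  have hz := z_tendsto_zero hx0 hx1 hirr
  have hx2 : 0 < 1 - x ^ 2 := by nlinarith
  -- it suffices to control the shifted sequences
  have aux : ∀ K : ℤ, ∀ᶠ n in atTop, K ≤ (sq x (n + 1)).a ∧ K ≤ (sq x (n + 1)).b := by
    intro K
    have hev : ∀ᶠ n in atTop, (sq x n).z * (sq x n).z * (|(K : ℝ)| + 1) < 1 - x ^ 2 := by
      have : Tendsto (fun n => (sq x n).z * (sq x n).z * (|(K : ℝ)| + 1)) atTop
          (nhds (0 * 0 * (|(K : ℝ)| + 1))) := (hz.mul hz).mul_const _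
      rw [zero_mul, zero_mul] at this
      exact (tendsto_order.1 this).2 _ hx2
    filter_upwards [hev] with n hn
    have h := inv_sq hx0 hx1 n
    have h' := inv_sq hx0 hx1 (n + 1)
    have h'' := inv_sq hx0 hx1 (n + 2)
    have b1 := h.eta_bounds
    have b2 := h.b_bounds
    have b3 := h'.eta_bounds
    have b4 := h'.b_bounds
    have fa := a_formula hx0 hx1 n
    have fb := b_formula hx0 hx1 n
    have ez : (sq x n).z1 = (sq x (n + 1)).z := rfl
    have ez' : (sq x (n + 1)).z1 = (sq x (n + 2)).z := rfl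
    rw [ez] at b2
    rw [ez'] at b4
    have ha : (1 : ℝ) ≤ (sq x (n + 1)).a := by exact_mod_cast h'.a_pos
    have hb : (1 : ℝ) ≤ (sq x (n + 1)).b := by exact_mod_cast h'.b_pos hx1
    have hzx := h.hzx
    have hzx' := h'.hzx
    have hzx'' := h''.hzx
    have z0 := h.hz
    have z1 := h'.hz
    have z2 := h''.hz
    have hK := le_abs_self (K : ℝ)
    have hK0 := abs_nonneg (K : ℝ)
    have hee : 0 < (sq x n).eta * (sq x (n + 1)).eta := mul_pos b1.1 b3.1
    constructor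
    · have h1 : 1 - x ^ 2 ≤ (sq x (n + 1)).a * ((sq x n).z * (sq x n).z) := by
        have h2 : (sq x n).z * (sq x (n + 1)).z ≤ x ^ 2 := by
          rw [pow_two]; exact mul_le_mul hzx hzx' z1.le hx0.le
        have h3 : (sq x n).eta * (sq x (n + 1)).z ≤ (sq x n).z * (sq x n).z :=
          mul_le_mul b1.2 (by linarith) z1.le z0.le
        have h4 : (sq x (n + 1)).a * ((sq x n).eta * (sq x (n + 1)).z) ≤
          (sq x (n + 1)).a * ((sq x n).z * (sq x n).z) := mul_le_mul_of_nonneg_left h3 (by linarith)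
        linarith
      have h5 : (sq x n).z * (sq x n).z * (|(K : ℝ)| + 1) <
          (sq x n).z * (sq x n).z * (sq x (n + 1)).a := by linarith
      have h6 : |(K : ℝ)| + 1 < (sq x (n + 1)).a :=
        lt_of_mul_lt_mul_left h5 (by positivity)
      have : (K : ℝ) ≤ (sq x (n + 1)).a := by linarith
      exact_mod_cast this
    · have h1 : 1 - x ^ 2 ≤ (sq x (n + 1)).b * ((sq x n).z * (sq x n).z) := by
        have h2 : (sq x (n + 1)).z * (sq x (n + 2)).z ≤ x ^ 2 := by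
          rw [pow_two]; exact mul_le_mul hzx' hzx'' z2.le hx0.le
        have h3 : (sq x (n + 1)).eta * (sq x (n + 1)).z ≤ (sq x n).z * (sq x n).z :=
          mul_le_mul (by linarith) (by linarith) z1.le z0.le
        have h4 : (sq x (n + 1)).b * ((sq x (n + 1)).eta * (sq x (n + 1)).z) ≤
          (sq x (n + 1)).b * ((sq x n).z * (sq x n).z) := mul_le_mul_of_nonneg_left h3 (by linarith)
        linarith
      have h5 : (sq x n).z * (sq x n).z * (|(K : ℝ)| + 1) <
          (sq x n).z * (sq x n).z * (sq x (n + 1)).b := by linarith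
      have h6 : |(K : ℝ)| + 1 < (sq x (n + 1)).b :=
        lt_of_mul_lt_mul_left h5 (by positivity)
      have : (K : ℝ) ≤ (sq x (n + 1)).b := by linarith
      exact_mod_cast this
  constructor
  · rw [← tendsto_add_atTop_iff_nat 1, tendsto_atTop]
    intro K
    filter_upwards [aux K] with n hn using hn.1
  · rw [← tendsto_add_atTop_iff_nat 1, tendsto_atTop]
    intro K
    filter_upwards [aux K] with n hn using hn.2

lemma irr_case (hx0 : 0 < x) (hx1 : x < 1) (hirr : Irrational x) :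
    ∃ g₁ g₂ : ℝ, g₁ ∈ Set.Ioo (0 : ℝ) 1 ∧ g₂ ∈ Set.Ioo (0 : ℝ) 1 ∧ Good g₁ ∧ Good g₂ ∧
      x = g₁ + g₂ := by
  obtain ⟨ta, tb⟩ := digits_tendsto hx0 hx1 hirr
  obtain ⟨t, ht, hrec⟩ := exists_tails (fun n => (sq x n).a)
    (fun n => (inv_sq hx0 hx1 n).a_pos)
  obtain ⟨t', ht', hrec'⟩ := exists_tails (fun n => (sq x n).b)
    (fun n => (inv_sq hx0 hx1 n).b_pos hx1)
  exact ⟨t 0, t' 0, ht 0, ht' 0, good_of_tails ht hrec ta, good_of_tails ht' hrec' tb,
    sum_eq hx0 hx1 ht hrec ht' hrec'⟩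

end seq

end Pool.Agent.U212.GG
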