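import Pool.Agent.U212.GGBasic

set_option autoImplicit false

namespace Pool.Agent.U212.GG

open Filter

/-- The digit sequence `M c₀, c₁, M c₂, c₃, …` with `c_n = n + 1`. -/
def dig (M : ℕ) (n : ℕ) : ℤ := if n % 2 = 0 then (M : ℤ) * (n + 1) else (n + 1)

/-- The digit sequence `c₀, M c₁, c₂, M c₃, …` with `c_n = n + 1`. -/
def dig' (M : ℕ) (n : ℕ) : ℤ := if n % 2 = 0 then (n + 1) else (M : ℤ) * (n + 1)

lemma dig_ge {M : ℕ} (hM : 1 ≤ M) (n : ℕ) : (n : ℤ) + 1 ≤ dig M n := by
  unfold dig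
  have : (1 : ℤ) ≤ M := by exact_mod_cast hM
  split_ifs
  · nlinarith
  · exact le_refl _

lemma dig'_ge {M : ℕ} (hM : 1 ≤ M) (n : ℕ) : (n : ℤ) + 1 ≤ dig' M n := by
  unfold dig'
  have : (1 : ℤ) ≤ M := by exact_mod_cast hM
  split_ifs
  · exact le_refl _
  · nlinarith

lemma tendsto_of_ge {a : ℕ → ℤ} (h : ∀ n : ℕ, (n : ℤ) + 1 ≤ a n) : Tendsto a atTop atTop := by
  apply tendsto_atTop_mono h
  apply tendsto_atTop_add_const_right
  exact tendsto_natCast_atTop_atTop

lemma exists_pair {M : ℕ} (hM : 1 ≤ M) :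
    ∃ t : ℝ, 0 < t ∧ (M : ℝ) * t < 1 ∧ Good t ∧ Good (M * t) := by
  obtain ⟨t, ht, hrec⟩ := exists_tails (dig M) (fun n => by have := dig_ge hM n; omega)
  have hM' : (1 : ℝ) ≤ M := by exact_mod_cast hM
  have hM0 : (0 : ℝ) < M := by linarith
  -- the companion sequence
  let s : ℕ → ℝ := fun n => if n % 2 = 0 then M * t n else t n / M
  have hs0 : s 0 = M * t 0 := by simp [s]
  have hsrec : ∀ n, s n = 1 / (dig' M n + s (n + 1)) := by
    intro n
    rcases Nat.mod_two_eq_zero_or_one n with h | h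
    · have h' : (n + 1) % 2 = 1 := by omega
      have e1 : s n = M * t n := by simp [s, h]
      have e2 : s (n + 1) = t (n + 1) / M := by simp [s, h']
      have e3 : (dig' M n : ℝ) = n + 1 := by simp [dig', h]
      have e4 : (dig M n : ℝ) = M * (n + 1) := by simp [dig, h]
      have hp := (ht (n + 1)).1
      rw [e1, e2, e3, hrec n, e4]
      have : (0 : ℝ) < M * (n + 1) + t (n + 1) := by positivity
      field_simp
    · have h' : (n + 1) % 2 = 0 := by omega
      have e1 : s n = t n / M := by simp [s, h]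
      have e2 : s (n + 1) = M * t (n + 1) := by simp [s, h']
      have e3 : (dig' M n : ℝ) = M * (n + 1) := by simp [dig', h]
      have e4 : (dig M n : ℝ) = n + 1 := by simp [dig, h]
      have hp := (ht (n + 1)).1
      rw [e1, e2, e3, hrec n, e4]
      have : (0 : ℝ) < (n + 1) + t (n + 1) := by positivity
      field_simp
  have hspos : ∀ n, 0 < s n := by
    intro n
    have := (ht n).1
    simp only [s]
    split_ifs <;> positivity
  have hslt : ∀ n, s n < 1 := by
    intro n
    rw [hsrec n]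
    have h1 : (1 : ℝ) ≤ dig' M n := by
      have h2 := dig'_ge hM n
      have : (1 : ℤ) ≤ dig' M n := by omega
      exact_mod_cast this
    have h2 := hspos (n + 1)
    rw [div_lt_one (by linarith)]
    linarith
  refine ⟨t 0, (ht 0).1, ?_, ?_, ?_⟩
  · rw [← hs0]; exact hslt 0
  · exact good_of_tails ht hrec (tendsto_of_ge (dig_ge hM))
  · rw [← hs0]
    exact good_of_tails (fun n => ⟨hspos n, hslt n⟩) hsrec (tendsto_of_ge (dig'_ge hM))

lemma rat_case (u v : ℕ) (hu : 0 < u) (huv : u ≤ v) (hcop : Nat.Coprime u v) :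
    ∃ g₁ g₂ : ℝ, g₁ ∈ Set.Ioo (0 : ℝ) 1 ∧ g₂ ∈ Set.Ioo (0 : ℝ) 1 ∧ Good g₁ ∧ Good g₂ ∧
      (u : ℝ) / v = g₁ + g₂ := by
  have hv : 0 < v := lt_of_lt_of_le hu huv
  have hv1 : (1 : ℝ) ≤ v := by exact_mod_cast hv
  have hu1 : (1 : ℝ) ≤ u := by exact_mod_cast hu
  have huv' : (u : ℝ) ≤ v := by exact_mod_cast huv
  -- Bezout coefficients with q ≥ 1 and p ≥ 0
  obtain ⟨q, p, hq, hp, hdet⟩ : ∃ q p : ℤ, 1 ≤ q ∧ 0 ≤ p ∧ (u : ℤ) * q - p * v = 1 := by
    have hb := Nat.gcd_eq_gcd_ab u v
    rw [hcop] at hb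
    -- 1 = u * a + v * b
    set a := Nat.gcdA u v
    set b := Nat.gcdB u v
    have hv0 : (0 : ℤ) < v := by exact_mod_cast hv
    have hu0 : (0 : ℤ) < u := by exact_mod_cast hu
    refine ⟨a % v + v, u - b + u * (- (a / v)) , ?_, ?_, ?_⟩
    · have := Int.emod_nonneg a hv0.ne'
      omega
    · -- u * q = 1 + p v with u q ≥ 1
      have h1 := Int.emod_nonneg a hv0.ne'
      have h2 : (u : ℤ) * (a % v + v) - (u - b + u * (-(a / v))) * v = 1 := by
        have h3 := Int.mul_ediv_add_emod a v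
        have h4 : a % v = a - v * (a / v) := by linarith
        rw [h4]
        push_cast at hb
        linear_combination -hb
      have h5 : (u - b + u * (-(a / v))) * (v : ℤ) ≥ 0 := by nlinarith
      by_contra hcon
      push Not at hcon
      nlinarith
    · have h3 := Int.mul_ediv_add_emod a v
      have h4 : a % v = a - v * (a / v) := by linarith
      rw [h4]
      push_cast at hb
      linear_combination -hb
  have hq' : (1 : ℝ) ≤ q := by exact_mod_cast hq
  have hp' : (0 : ℝ) ≤ p := by exact_mod_cast hp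
  have hdet' : (u : ℝ) * q - p * v = 1 := by exact_mod_cast hdet
  obtain ⟨t, ht0, ht1, hg, hg'⟩ := exists_pair (M := v ^ 2) (Nat.one_le_pow _ _ hv)
  push_cast at ht1 hg'
  have hvv : (1 : ℝ) ≤ (v : ℝ) ^ 2 := by nlinarith
  have htlt : t < 1 := by nlinarith
  have hirr := irrational_of_good ht0 htlt hg
  have hG2 : G2 t := (g2_of_mem ht0.le htlt).mpr hg
  have hden : 0 < (v : ℝ) * t + q := by positivity
  -- first summand
  set y : ℝ := ((u : ℝ) * t + p) / (v * t + q) with hy
  set z : ℝ := 1 / ((v : ℝ) ^ 2 * t + (v * q : ℝ)) with hz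
  have hsum : (u : ℝ) / v = y + z := by
    rw [hy, hz]
    have h1 : (v : ℝ) ^ 2 * t + v * q = v * (v * t + q) := by ring
    rw [h1]
    field_simp
    linear_combination hdet'
  have hzden : 0 < (v : ℝ) ^ 2 * t + v * q := by positivity
  have hz0 : 0 < z := by rw [hz]; positivity
  have hy0 : 0 < y := by
    rw [hy]; positivity
  have hx1 : (u : ℝ) / v ≤ 1 := by
    rw [div_le_one (by linarith)]; exact huv'
  have hyG : Good y := by
    rw [← g2_of_mem hy0.le (by linarith)]
    have := g2_unimod hirr hG2 v u p q (Or.inl hdet)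
    simpa [hy] using this
  have hzG : Good z := by
    rw [← good_gauss]
    have : gauss z = (v : ℝ) ^ 2 * t := by
      unfold gauss
      rw [hz, one_div_one_div]
      have : (v : ℝ) ^ 2 * t + v * q = (v : ℝ) ^ 2 * t + (((v : ℤ) * q : ℤ) : ℝ) := by
        push_cast; ring
      rw [this, Int.fract_add_intCast, Int.fract_eq_self]
      exact ⟨by positivity, ht1⟩
    rw [this]
    exact hg'
  exact ⟨y, z, ⟨hy0, by linarith⟩, ⟨hz0, by linarith⟩, hyG, hzG, hsum⟩

end Pool.Agent.U212.GG
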