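import Mathlib

/-!
# Partial quotients tending to infinity: basic facts about the Gauss map

Used in the proof that every real number in `(0,1]` is a sum of two numbers whose partial
quotients tend to infinity.
-/

set_option autoImplicit false

namespace Pool.Agent.U212.GG

open Filter

/-- The Gauss map. -/
noncomputable def gauss (y : ℝ) : ℝ := Int.fract (1 / y)

/-- The digits of `y` (computed by the Gauss map) tend to infinity. -/
def Good (y : ℝ) : Prop :=
  Tendsto (fun n : ℕ => ⌊1 / (gauss^[n] y)⌋) atTop atTop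

/-- Digits of the fractional part tend to infinity. -/
def G2 (y : ℝ) : Prop := Good (Int.fract y)

lemma good_gauss (y : ℝ) : Good (gauss y) ↔ Good y := by
  unfold Good
  have h : (fun n : ℕ => ⌊1 / (gauss^[n] (gauss y))⌋) =
      fun n : ℕ => (fun m : ℕ => ⌊1 / (gauss^[m] y)⌋) (n + 1) := by
    funext n
    simp [Function.iterate_succ_apply]
  rw [h]
  exact tendsto_add_atTop_iff_nat (f := fun m : ℕ => ⌊1 / (gauss^[m] y)⌋) 1

lemma g2_add_int (y : ℝ) (k : ℤ) : G2 (y + k) ↔ G2 y := by
  unfold G2
  rw [Int.fract_add_intCast]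

lemma g2_of_mem {y : ℝ} (h0 : 0 ≤ y) (h1 : y < 1) : G2 y ↔ Good y := by
  unfold G2
  rw [Int.fract_eq_self.mpr ⟨h0, h1⟩]

lemma good_one_sub_aux {f : ℝ} (h0 : 0 < f) (h1 : f < 1 / 2) : Good (1 - f) ↔ Good f := by
  have hpos : 0 < 1 - f := by linarith
  have e1 : gauss (1 - f) = f / (1 - f) := by
    unfold gauss
    have : 1 / (1 - f) = f / (1 - f) + ((1 : ℤ) : ℝ) := by
      field_simp
      push_cast
      ring
    rw [this, Int.fract_add_intCast, Int.fract_eq_self]
    constructor
    · positivity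
    · rw [div_lt_one hpos]; linarith
  have e2 : gauss (f / (1 - f)) = gauss f := by
    unfold gauss
    have : 1 / (f / (1 - f)) = 1 / f + ((-1 : ℤ) : ℝ) := by
      field_simp
      push_cast
      ring
    rw [this, Int.fract_add_intCast]
  rw [← good_gauss (1 - f), e1, ← good_gauss (f / (1 - f)), e2, good_gauss]

lemma good_one_sub {f : ℝ} (h0 : 0 < f) (h1 : f < 1) : Good (1 - f) ↔ Good f := by
  rcases lt_trichotomy f (1 / 2) with h | h | h
  · exact good_one_sub_aux h0 h
  · subst h; norm_num
  · have := good_one_sub_aux (f := 1 - f) (by linarith) (by linarith)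
    rw [← this]
    simp

lemma g2_neg (y : ℝ) : G2 (-y) ↔ G2 y := by
  unfold G2
  by_cases h : Int.fract y = 0
  · have : Int.fract (-y) = 0 := by
      rw [Int.fract_neg_eq_zero]; exact h
    rw [h, this]
  · rw [Int.fract_neg h]
    exact good_one_sub (lt_of_le_of_ne (Int.fract_nonneg y) (Ne.symm h)) (Int.fract_lt_one y)

lemma g2_inv_aux {y : ℝ} (h0 : 0 < y) (h1 : y < 1) : G2 (1 / y) ↔ G2 y := by
  rw [g2_of_mem h0.le h1, ← good_gauss y]
  rfl

lemma g2_inv_pos {y : ℝ} (h0 : 0 < y) : G2 (1 / y) ↔ G2 y := by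
  rcases lt_trichotomy y 1 with h | h | h
  · exact g2_inv_aux h0 h
  · subst h; norm_num
  · have := g2_inv_aux (y := 1 / y) (by positivity) (by rw [div_lt_one h0]; exact h)
    rw [← this]
    simp

lemma g2_inv (y : ℝ) : G2 (1 / y) ↔ G2 y := by
  rcases lt_trichotomy y 0 with h | h | h
  · have h1 := g2_inv_pos (y := -y) (by linarith)
    rw [g2_neg y] at h1
    rw [← h1, ← g2_neg (1 / y)]
    have : -(1 / y) = 1 / (-y) := by
      rw [div_neg]
    rw [this]
  · subst h; simp
  · exact g2_inv_pos h

/-- Invariance under unimodular substitutions. -/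
lemma g2_unimod {t : ℝ} (ht : Irrational t) (hg : G2 t) :
    ∀ (v : ℕ) (u p q : ℤ), (u * q - p * v = 1 ∨ u * q - p * v = -1) →
      G2 ((u * t + p) / (v * t + q)) := by
  intro v
  induction v using Nat.strong_induction_on with
  | _ v ih =>
    intro u p q hdet
    rcases Nat.eq_zero_or_pos v with hv | hv
    · subst hv
      simp only [Nat.cast_zero, mul_zero, sub_zero, zero_mul, zero_add] at hdet ⊢
      have hq : q = 1 ∨ q = -1 := by
        apply Int.isUnit_iff.mp
        rcases hdet with h | h
        · exact IsUnit.of_mul_eq_one u (by linarith)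
        · exact IsUnit.of_mul_eq_one (-u) (by linarith)
      have hu : u = 1 ∨ u = -1 := by
        apply Int.isUnit_iff.mp
        rcases hdet with h | h
        · exact IsUnit.of_mul_eq_one q (by linarith)
        · exact IsUnit.of_mul_eq_one (-q) (by linarith)
      rcases hq with rfl | rfl <;> rcases hu with rfl | rfl
      · have : (((1 : ℤ) : ℝ) * t + p) / ((1 : ℤ) : ℝ) = t + p := by push_cast; ring
        rw [this, g2_add_int]; exact hg
      · have : (((-1 : ℤ) : ℝ) * t + p) / ((1 : ℤ) : ℝ) = -t + p := by push_cast; ring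
        rw [this, g2_add_int, g2_neg]; exact hg
      · have : (((1 : ℤ) : ℝ) * t + p) / ((-1 : ℤ) : ℝ) = -t + ((-p : ℤ) : ℝ) := by
          push_cast; ring
        rw [this, g2_add_int, g2_neg]; exact hg
      · have : (((-1 : ℤ) : ℝ) * t + p) / ((-1 : ℤ) : ℝ) = t + ((-p : ℤ) : ℝ) := by
          push_cast; ring
        rw [this, g2_add_int]; exact hg
    · have hvt : (v : ℝ) * t + q ≠ 0 := by
        intro h
        apply ht
        refine ⟨(-q : ℚ) / v, ?_⟩
        push_cast
        have hv' : (v : ℝ) ≠ 0 := by positivity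
        field_simp
        linarith
      -- Euclidean step
      have hv0 : (0 : ℤ) < v := by exact_mod_cast hv
      set k : ℤ := u / v with hk
      have hr0 : 0 ≤ u % v := Int.emod_nonneg _ hv0.ne'
      have hr1 : u % v < v := Int.emod_lt_of_pos _ hv0
      obtain ⟨r, hr⟩ := Int.eq_ofNat_of_zero_le hr0
      have hrv : r < v := by
        have : (r : ℤ) < v := by rw [← hr]; exact hr1
        exact_mod_cast this
      have hdiv : (u : ℤ) = v * k + r := by
        have := Int.mul_ediv_add_emod u v
        rw [hr] at this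
        linarith
      have e : ((u : ℝ) * t + p) / (v * t + q) =
          (((r : ℤ) : ℝ) * t + ((p - k * q : ℤ) : ℝ)) / (v * t + q) + (k : ℝ) := by
        have hu : (u : ℝ) = v * k + r := by exact_mod_cast hdiv
        rw [hu]
        field_simp
        push_cast
        ring
      rw [e, g2_add_int, ← g2_inv, one_div_div]
      have := ih r hrv v q (p - k * q) (by
        rcases hdet with h | h
        · right
          rw [hdiv] at h
          linarith
        · left
          rw [hdiv] at h
          linarith)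
      simpa using this

lemma gauss_zero : gauss 0 = 0 := by
  simp [gauss]

lemma not_good_zero : ¬ Good 0 := by
  unfold Good
  have h : ∀ n : ℕ, gauss^[n] 0 = 0 := by
    intro n
    induction n with
    | zero => rfl
    | succ n ih => rw [Function.iterate_succ_apply', ih, gauss_zero]
  intro ht
  have := (tendsto_atTop.mp ht 1).exists
  obtain ⟨n, hn⟩ := this
  rw [h n] at hn
  simp at hn

lemma not_good_rat : ∀ (d m : ℕ), m < d → ¬ Good ((m : ℝ) / d) := by
  intro d
  induction d using Nat.strong_induction_on with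
  | _ d ih =>
    intro m hm
    rcases Nat.eq_zero_or_pos m with h | h
    · subst h
      simpa using not_good_zero
    · rw [← good_gauss]
      have : gauss ((m : ℝ) / d) = ((d % m : ℕ) : ℝ) / m := by
        unfold gauss
        rw [one_div_div]
        exact Int.fract_div_natCast_eq_div_natCast_mod
      rw [this]
      exact ih m hm (d % m) (Nat.mod_lt _ h)

lemma irrational_of_good {t : ℝ} (h0 : 0 < t) (h1 : t < 1) (hg : Good t) : Irrational t := by
  rintro ⟨r, hr⟩
  have hr0 : 0 < r := by
    have : (0 : ℝ) < (r : ℝ) := by rw [hr]; exact h0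
    exact_mod_cast this
  have hr1 : r < 1 := by
    have : (r : ℝ) < 1 := by rw [hr]; exact h1
    exact_mod_cast this
  have hnum : (r.num.toNat : ℤ) = r.num := Int.toNat_of_nonneg (Rat.num_nonneg.mpr hr0.le)
  have key : t = ((r.num.toNat : ℕ) : ℝ) / (r.den : ℝ) := by
    rw [← hr]
    have h2 : ((r.num.toNat : ℕ) : ℝ) = (r.num : ℝ) := by
      exact_mod_cast hnum
    rw [h2]
    exact_mod_cast (Rat.cast_def r : (r : ℝ) = _)
  have hlt : r.num.toNat < r.den := by
    have : r.num < r.den := by
      exact Rat.num_lt_denom_iff.mpr hr1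
    omega
  rw [key] at hg
  exact not_good_rat _ _ hlt hg

/-! ### Numbers with prescribed digits -/

lemma exists_approx : ∀ (N : ℕ) (a : ℕ → ℤ), (∀ n, 1 ≤ a n) →
    ∃ t : ℕ → ℝ, (∀ n, t n ∈ Set.Icc (0 : ℝ) 1) ∧ ∀ n < N, t n * (a n + t (n + 1)) = 1 := by
  intro N
  induction N with
  | zero =>
    intro a _
    exact ⟨fun _ => 0, fun _ => ⟨le_refl _, zero_le_one⟩, fun n hn => absurd hn (Nat.not_lt_zero n)⟩
  | succ N ih =>
    intro a ha
    obtain ⟨t, ht, ht'⟩ := ih (fun n => a (n + 1)) (fun n => ha (n + 1))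
    have ha0 : (1 : ℝ) ≤ a 0 := by exact_mod_cast ha 0
    have hpos : 0 < (a 0 : ℝ) + t 0 := by have := (ht 0).1; linarith
    refine ⟨fun n => Nat.casesOn n (1 / (a 0 + t 0)) t, ?_, ?_⟩
    · intro n
      rcases n with _ | n
      · constructor
        · show 0 ≤ 1 / ((a 0 : ℝ) + t 0)
          positivity
        · show 1 / ((a 0 : ℝ) + t 0) ≤ 1
          rw [div_le_one hpos]
          have := (ht 0).1
          linarith
      · exact ht n
    · intro n hn
      rcases n with _ | n
      · show 1 / ((a 0 : ℝ) + t 0) * (a 0 + t 0) = 1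
        field_simp
      · exact ht' n (by omega)

lemma exists_tails (a : ℕ → ℤ) (ha : ∀ n, 1 ≤ a n) :
    ∃ t : ℕ → ℝ, (∀ n, 0 < t n ∧ t n < 1) ∧ ∀ n, t n = 1 / (a n + t (n + 1)) := by
  let K : Set (ℕ → ℝ) := Set.univ.pi (fun _ => Set.Icc (0 : ℝ) 1)
  let C : ℕ → Set (ℕ → ℝ) := fun N => K ∩ {t | ∀ n < N, t n * (a n + t (n + 1)) = 1}
  have hK : IsCompact K := isCompact_univ_pi (fun _ => isCompact_Icc)
  have hclosed : ∀ N, IsClosed {t : ℕ → ℝ | ∀ n < N, t n * (a n + t (n + 1)) = 1} := by
    intro N
    have : {t : ℕ → ℝ | ∀ n < N, t n * (a n + t (n + 1)) = 1} =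
        ⋂ n, ⋂ (_ : n < N), {t : ℕ → ℝ | t n * (a n + t (n + 1)) = 1} := by
      ext t; simp
    rw [this]
    refine isClosed_iInter fun n => isClosed_iInter fun _ => ?_
    exact isClosed_eq (by fun_prop) continuous_const
  have hne : (⋂ N, C N).Nonempty := by
    apply IsCompact.nonempty_iInter_of_sequence_nonempty_isCompact_isClosed C
    · intro N t ht
      exact ⟨ht.1, fun n hn => ht.2 n (by omega)⟩
    · intro N
      obtain ⟨t, ht, ht'⟩ := exists_approx N a ha
      exact ⟨t, fun n _ => ht n, ht'⟩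
    · exact hK.inter_right (hclosed 0)
    · intro N
      exact hK.isClosed.inter (hclosed N)
  obtain ⟨t, ht⟩ := hne
  have h1 : ∀ n, t n ∈ Set.Icc (0 : ℝ) 1 := fun n => (Set.mem_iInter.mp ht 0).1 n trivial
  have h2 : ∀ n, t n * (a n + t (n + 1)) = 1 := fun n =>
    (Set.mem_iInter.mp ht (n + 1)).2 n (Nat.lt_succ_self n)
  have h3 : ∀ n, 0 < t n := by
    intro n
    refine lt_of_le_of_ne (h1 n).1 ?_
    intro h
    have := h2 n
    rw [← h] at this
    simp at this
  have ha' : ∀ n, (1 : ℝ) ≤ a n := fun n => by exact_mod_cast ha n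
  refine ⟨t, fun n => ⟨h3 n, ?_⟩, fun n => ?_⟩
  · have := h2 n
    have h4 := h3 (n + 1)
    have h5 := h3 n
    have h6 := ha' n
    by_contra hcon
    push Not at hcon
    nlinarith
  · have h4 := h3 (n + 1)
    have h6 := ha' n
    have : 0 < (a n : ℝ) + t (n + 1) := by linarith
    rw [eq_div_iff this.ne']
    exact h2 n

lemma good_of_tails {a : ℕ → ℤ} {t : ℕ → ℝ} (ht : ∀ n, 0 < t n ∧ t n < 1)
    (hrec : ∀ n, t n = 1 / (a n + t (n + 1))) (ha : Tendsto a atTop atTop) : Good (t 0) := by
  have hinv : ∀ n, 1 / t n = t (n + 1) + a n := by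
    intro n
    rw [hrec n, one_div_one_div]
    ring
  have hit : ∀ n, gauss^[n] (t 0) = t n := by
    intro n
    induction n with
    | zero => rfl
    | succ n ih =>
      rw [Function.iterate_succ_apply', ih]
      unfold gauss
      rw [hinv n, Int.fract_add_intCast]
      exact Int.fract_eq_self.mpr ⟨(ht (n + 1)).1.le, (ht (n + 1)).2⟩
  unfold Good
  have : (fun n : ℕ => ⌊1 / (gauss^[n] (t 0))⌋) = a := by
    funext n
    rw [hit n, hinv n, Int.floor_add_intCast]
    have : ⌊t (n + 1)⌋ = 0 := Int.floor_eq_zero_iff.mpr ⟨(ht (n + 1)).1.le, (ht (n + 1)).2⟩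
    rw [this]; ring
  rw [this]
  exact ha

end Pool.Agent.U212.GG
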